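import Pool.Agent.P.MP_9ae58c_an.B.Glue

/-! Halting is decided by the escape of the third body, from rational points, for suitable
computable masses. -/

namespace Pool.Agent.Results.MP_9ae58c_an.Escape

open Pool.Agent.P.MP_9ae58c_an

theorem result : ∃ m : Fin 3 → ℝ, (∀ i, 0 < m i ∧ CompReal (m i)) ∧ ∃ U : TM, U.Universal ∧
    ∃ p : U.Inp → QPt 3, Computable p ∧ (∀ d d', U.tape d = U.tape d' → p d = p d') ∧
      ∀ d, NoColl (p d).val.1 ∧
        (∃ q v : ℝ → Conf 3, (∀ T, 0 ≤ T → IsSol m T q v) ∧ (q 0, v 0) = (p d).val ∧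
          (U.Halts d → Filter.Tendsto (fun t => q t 2 2) Filter.atTop Filter.atTop) ∧
          (¬U.Halts d → ∀ t, 0 ≤ t → ∀ i k, |q t i k| < 1)) ∧
        (U.Halts d ↔ Meets m (p d).val {x | 1 < x.1 2 2}) :=
  B.g_MAIN

end Pool.Agent.Results.MP_9ae58c_an.Escape
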