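import Pool.Agent.P.MP_9ae58c_an.Core
import Pool.Agent.P.MP_9ae58c_an.Univ

/-! The three-body problem is Turing complete for suitable computable masses. -/

namespace Pool.Agent.Results.MP_9ae58c_an.ThreeBody

open Pool.Agent.P.MP_9ae58c_an

theorem result : ∃ m : Fin 3 → ℝ, (∀ i, 0 < m i ∧ CompReal (m i)) ∧ TuringComplete m := by
  obtain ⟨U, hU⟩ := exists_universal
  obtain ⟨f, c, hf, hc, hinv, hh⟩ := halts_enum U
  obtain ⟨m, hm, hcore⟩ := core hc
  exact ⟨m, hm, U, hU, fun _ => start, fun d => boxes (f d), Computable.const _,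
    (prim_boxes.comp hf).to_comp, fun d d' h => ⟨rfl, by simp only [hinv d d' h]⟩,
    fun d => ⟨start_nocoll, (hh d).trans (hcore (f d))⟩⟩

end Pool.Agent.Results.MP_9ae58c_an.ThreeBody
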